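import Mathlib

namespace Pool.Agent.Results.MP_118fda_co.Alt

/-- generalized Mycielski graph; level i is stored as i - 1, the apex is none -/
def myc {V : Type} (G : SimpleGraph V) (r : ℕ) : SimpleGraph (Option (V × Fin r)) :=
  SimpleGraph.fromRel fun a b =>
    (∃ u v i j, a = some (u, i) ∧ b = some (v, j) ∧ G.Adj u v ∧
      ((i.val = 0 ∧ j.val = 0) ∨ i.val + 1 = j.val)) ∨
    (∃ u i, a = some (u, i) ∧ b = none ∧ i.val + 1 = r)

/-- a cycle of length L -/
def IsCyc {W : Type} (G : SimpleGraph W) (L : ℕ) (c : ZMod L → W) : Prop :=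
  3 ≤ L ∧ Function.Injective c ∧ ∀ i, G.Adj (c i) (c (i + 1))

lemma odd_mono {L : ℕ} (hL : Odd L) (f : ZMod L → Bool) : ∃ i, f i = f (i + 1) := by
  by_contra h
  push Not at h
  have : ∀ n : ℕ, f n = xor (f 0) (decide (n % 2 = 1)) := by
    intro n
    induction n with
    | zero => simp
    | succ n ih =>
      have h1 := h n
      rw [ih] at h1
      rw [Nat.cast_succ]
      rcases Nat.mod_two_eq_zero_or_one n with e | e
      · have : (n + 1) % 2 = 1 := by omega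
        revert h1; rw [e, this]; cases f 0 <;> cases f (n + 1) <;> simp
      · have : (n + 1) % 2 = 0 := by omega
        revert h1; rw [e, this]; cases f 0 <;> cases f (n + 1) <;> simp
  have h2 := this L
  rw [ZMod.natCast_self, Nat.odd_iff.1 hL] at h2
  simp at h2

lemma abstract {W : Type} [Fintype W] (G : SimpleGraph W) (m : ℕ) (col : ℕ → W → Bool)
    (hcol : ∀ a b, G.Adj a b → ∀ j j', j ≤ m → j' ≤ m → col j a = col j b → col j' a = col j' b →
      j = j') :
    ∃ D : W → W → Prop, (∀ a b, G.Adj a b ↔ D a b ∨ D b a) ∧ (∀ a b, D a b → ¬ D b a) ∧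
      ∀ L c, IsCyc G L c → Odd L → L ≤ m + 1 →
        Set.Subsingleton {i : ZMod L | ¬ ((D (c i) (c (i - 1)) ∧ D (c i) (c (i + 1))) ∨
          (D (c (i - 1)) (c i) ∧ D (c (i + 1)) (c i)))} := by
  classical
  let e := Fintype.equivFin W
  refine ⟨fun a b => G.Adj a b ∧ (col 0 a < col 0 b ∨ (col 0 a = col 0 b ∧ e a < e b)), ?_, ?_, ?_⟩
  · intro a b
    constructor
    · intro h
      rcases lt_trichotomy (col 0 a) (col 0 b) with h1 | h1 | h1
      · exact Or.inl ⟨h, Or.inl h1⟩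
      · rcases lt_or_gt_of_ne (e.injective.ne h.ne) with h2 | h2
        · exact Or.inl ⟨h, Or.inr ⟨h1, h2⟩⟩
        · exact Or.inr ⟨h.symm, Or.inr ⟨h1.symm, h2⟩⟩
      · exact Or.inr ⟨h.symm, Or.inl h1⟩
    · rintro (h | h)
      · exact h.1
      · exact h.1.symm
  · rintro a b ⟨-, h1 | ⟨h1, h2⟩⟩ ⟨-, h3 | ⟨h3, h4⟩⟩
    · exact lt_asymm h1 h3
    · exact h1.ne h3.symm
    · exact h3.ne h1.symm
    · exact lt_asymm h2 h4
  rintro L c ⟨h3, hinj, hadj⟩ hodd hL
  have : NeZero L := ⟨by omega⟩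
  choose s hs using fun j : ℕ => odd_mono hodd fun i => col j (c i)
  have huniq : ∀ i, col 0 (c i) = col 0 (c (i + 1)) → i = s 0 := by
    intro i hi
    have hb : Function.Bijective fun j : Fin (m + 1) => s j := by
      have hi : Function.Injective fun j : Fin (m + 1) => s j := by
        intro j j' h
        have h : s j = s j' := h
        exact Fin.ext (hcol _ _ (hadj (s j)) j j' (by omega) (by omega) (hs j) (h ▸ hs j'))
      refine (Fintype.bijective_iff_injective_and_card _).2 ⟨hi, le_antisymm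
        (Fintype.card_le_of_injective _ hi) (by simpa using hL)⟩
    obtain ⟨j, rfl⟩ := hb.2 i
    have := hcol _ _ (hadj (s j)) j 0 (by omega) (by omega) (hs j) hi
    simp [this]
  have hp : ∀ i, G.Adj (c i) (c (i - 1)) := fun i => by
    simpa using (hadj (i - 1)).symm
  have h1 : (1 : ZMod L) ≠ 0 := by
    have : Fact (1 < L) := ⟨by omega⟩
    exact one_ne_zero
  have hbad : ∀ i : ZMod L, ¬ (((G.Adj (c i) (c (i - 1)) ∧ (col 0 (c i) < col 0 (c (i - 1)) ∨
        (col 0 (c i) = col 0 (c (i - 1)) ∧ e (c i) < e (c (i - 1))))) ∧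
      (G.Adj (c i) (c (i + 1)) ∧ (col 0 (c i) < col 0 (c (i + 1)) ∨
        (col 0 (c i) = col 0 (c (i + 1)) ∧ e (c i) < e (c (i + 1)))))) ∨
      ((G.Adj (c (i - 1)) (c i) ∧ (col 0 (c (i - 1)) < col 0 (c i) ∨
        (col 0 (c (i - 1)) = col 0 (c i) ∧ e (c (i - 1)) < e (c i)))) ∧
      (G.Adj (c (i + 1)) (c i) ∧ (col 0 (c (i + 1)) < col 0 (c i) ∨
        (col 0 (c (i + 1)) = col 0 (c i) ∧ e (c (i + 1)) < e (c i)))))) →
      i = if (col 0 (c (s 0)) = true ↔ e (c (s 0)) < e (c (s 0 + 1))) then s 0 else s 0 + 1 := by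
    intro i hi
    simp only [hp i, hadj i, (hp i).symm, (hadj i).symm, true_and] at hi
    have u1 := huniq i
    have u2 := huniq (i - 1)
    rw [sub_add_cancel] at u2
    have n1 : e (c i) ≠ e (c (i + 1)) := e.injective.ne (hadj i).ne
    have n2 : e (c i) ≠ e (c (i - 1)) := e.injective.ne (hp i).ne
    by_cases a1 : col 0 (c i) = col 0 (c (i + 1))
    · have a2 : col 0 (c (i - 1)) ≠ col 0 (c i) := fun h =>
        h1 (by have := (u1 a1).trans (u2 h).symm; linear_combination this)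
      rw [← u1 a1, if_pos]
      rw [← a1] at hi
      revert hi a2
      cases col 0 (c i) <;> cases col 0 (c (i - 1)) <;> simp <;> omega
    by_cases a2 : col 0 (c (i - 1)) = col 0 (c i)
    · rw [← u2 a2, sub_add_cancel, if_neg]
      rw [a2] at hi ⊢
      revert hi a1
      cases col 0 (c i) <;> cases col 0 (c (i + 1)) <;> simp <;> omega
    · exfalso
      revert hi a1 a2
      cases col 0 (c i) <;> cases col 0 (c (i + 1)) <;> cases col 0 (c (i - 1)) <;> simp
  intro i hi j hj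
  exact (hbad i hi).trans (hbad j hj).symm

def cl (g j u h : ℕ) : Bool :=
  decide ((h % 2 = 1) ↔ ¬ ∃ d, d < h ∧ (d + h) % 2 = 1 ∧
    (u + d = j ∨ j + d = u ∨ u + d = j + (2 * g + 1) ∨ j + d = u + (2 * g + 1)))

lemma cl_iff (g j u h : ℕ) (hj : j ≤ 2 * g) (hu : u ≤ 2 * g) (hh : h ≤ g) : cl g j u h = true ↔
    ((h % 2 = 1) ↔ ¬ ((j < u + h ∧ u < j + h ∧ (j + u + h) % 2 = 1) ∨
      ((j + (2 * g + 1) < u + h ∨ u + (2 * g + 1) < j + h) ∧ (j + u + h) % 2 = 0))) := by
  unfold cl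
  rw [decide_eq_true_iff]
  refine iff_congr Iff.rfl (not_congr ⟨?_, ?_⟩)
  · rintro ⟨d, h⟩; omega
  · rintro (h | ⟨h | h, h'⟩)
    · exact ⟨(j - u) + (u - j), by omega⟩
    · exact ⟨j + (2 * g + 1) - u, by omega⟩
    · exact ⟨u + (2 * g + 1) - j, by omega⟩

lemma cl1 (g u v h j : ℕ) (hu : u ≤ 2 * g) (hv : v ≤ 2 * g) (hh : h + 1 ≤ g) (hj : j ≤ 2 * g)
    (ha : u + 1 = v ∨ (v = 0 ∧ u = 2 * g)) (e : cl g j u h = cl g j v (h + 1)) :
    j = v + h ∨ j + (2 * g + 1) = v + h := by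
  rw [Bool.eq_iff_iff, cl_iff _ _ _ _ hj hu (by omega), cl_iff _ _ _ _ hj hv hh] at e
  rcases Nat.mod_two_eq_zero_or_one h with a | a <;>
  rcases Nat.mod_two_eq_zero_or_one (h + 1) with b | b <;>
  rcases Nat.mod_two_eq_zero_or_one (j + u + h) with c | c <;>
  rcases Nat.mod_two_eq_zero_or_one (j + v + (h + 1)) with d | d <;>
  simp only [a, b, c, d] at e <;> simp at e <;> omega

lemma cl2 (g u v h j : ℕ) (hu : u ≤ 2 * g) (hv : v ≤ 2 * g) (hh : h + 1 ≤ g) (hj : j ≤ 2 * g)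
    (ha : v + 1 = u ∨ (u = 0 ∧ v = 2 * g)) (e : cl g j u h = cl g j v (h + 1)) :
    j + h = v ∨ j + h = v + (2 * g + 1) := by
  rw [Bool.eq_iff_iff, cl_iff _ _ _ _ hj hu (by omega), cl_iff _ _ _ _ hj hv hh] at e
  rcases Nat.mod_two_eq_zero_or_one h with a | a <;>
  rcases Nat.mod_two_eq_zero_or_one (h + 1) with b | b <;>
  rcases Nat.mod_two_eq_zero_or_one (j + u + h) with c | c <;>
  rcases Nat.mod_two_eq_zero_or_one (j + v + (h + 1)) with d | d <;>
  simp only [a, b, c, d] at e <;> simp at e <;> omega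

lemma cl3 (g u v j : ℕ) (hu : u ≤ 2 * g) (hv : v ≤ 2 * g) (hh : 1 ≤ g) (hj : j ≤ 2 * g)
    (e : cl g j u 0 = cl g j v 1) : j = v := by
  rw [Bool.eq_iff_iff, cl_iff _ _ _ _ hj hu (by omega), cl_iff _ _ _ _ hj hv hh] at e
  omega

lemma cl4 (g u v j : ℕ) (hu : u ≤ 2 * g) (hv : v ≤ 2 * g) (hj : j ≤ 2 * g)
    (ha : u + 1 = v ∨ (v = 0 ∧ u = 2 * g)) (e : cl g j u g = cl g j v g) :
    j = v + g ∨ j + (2 * g + 1) = v + g := by
  rw [Bool.eq_iff_iff, cl_iff _ _ _ _ hj hu le_rfl, cl_iff _ _ _ _ hj hv le_rfl] at e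
  rcases Nat.mod_two_eq_zero_or_one g with a | a <;>
  rcases Nat.mod_two_eq_zero_or_one (j + u + g) with c | c <;>
  rcases Nat.mod_two_eq_zero_or_one (j + v + g) with d | d <;>
  simp only [a, c, d] at e <;> simp at e <;> omega

lemma cl_key (g u v h h' j j' : ℕ) (hu : u ≤ 2 * g) (hv : v ≤ 2 * g) (hh' : h' ≤ g)
    (hj : j ≤ 2 * g) (hj' : j' ≤ 2 * g)
    (ha : (h = 0 ∧ h' = 1) ∨ ((h + 1 = h' ∨ (h = g ∧ h' = g)) ∧
      (u + 1 = v ∨ v + 1 = u ∨ (u = 0 ∧ v = 2 * g) ∨ (v = 0 ∧ u = 2 * g))))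
    (e1 : cl g j u h = cl g j v h') (e2 : cl g j' u h = cl g j' v h') : j = j' := by
  rcases ha with ⟨rfl, rfl⟩ | ⟨rfl | ⟨rfl, rfl⟩, ha⟩
  · rw [cl3 g u v j hu hv hh' hj e1, cl3 g u v j' hu hv hh' hj' e2]
  · by_cases c : u + 1 = v ∨ (v = 0 ∧ u = 2 * g)
    · have := cl1 g u v h j hu hv hh' hj c e1
      have := cl1 g u v h j' hu hv hh' hj' c e2
      omega
    · have := cl2 g u v h j hu hv hh' hj (by omega) e1
      have := cl2 g u v h j' hu hv hh' hj' (by omega) e2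
      omega
  · by_cases c : u + 1 = v ∨ (v = 0 ∧ u = 2 * h')
    · have := cl4 h' u v j hu hv hj c e1
      have := cl4 h' u v j' hu hv hj' c e2
      omega
    · have := cl4 h' v u j hv hu hj (by omega) e1.symm
      have := cl4 h' v u j' hv hu hj' (by omega) e2.symm
      omega

lemma cyc_adj {n : ℕ} (hn : 1 ≤ n) (u v : Fin (2 * n + 1)) :
    (SimpleGraph.cycleGraph (2 * n + 1)).Adj u v ↔ u.val + 1 = v.val ∨ v.val + 1 = u.val ∨
      (u.val = 0 ∧ v.val = 2 * n) ∨ (v.val = 0 ∧ u.val = 2 * n) := by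
  have hu := u.2
  have hv := v.2
  rw [SimpleGraph.cycleGraph_adj']
  rcases lt_trichotomy u v with h | h | h
  · rw [Fin.coe_sub_iff_lt.2 h, Fin.coe_sub_iff_le.2 h.le]
    have : u.val < v.val := h
    omega
  · subst h; rw [sub_self, Fin.val_zero]; omega
  · rw [Fin.coe_sub_iff_lt.2 h, Fin.coe_sub_iff_le.2 h.le]
    have : v.val < u.val := h
    omega

def pos (r k : ℕ) : Option (Fin (2 * k + 1) × Fin r) → ℕ × ℕ
  | none => (0, (r - k) % 2)
  | some (u, i) => if k ≤ i.val then (0, (i.val - k) % 2) else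
      (if u.val ≤ 2 * r then u.val else 2 * r - u.val % 2, min r k - i.val)

theorem result (r k : ℕ) (hr : 1 ≤ r) (hk : 1 ≤ k) :
    ∃ D : Option (Fin (2 * k + 1) × Fin r) → Option (Fin (2 * k + 1) × Fin r) → Prop,
      (∀ a b, (myc (SimpleGraph.cycleGraph (2 * k + 1)) r).Adj a b ↔ D a b ∨ D b a) ∧
      (∀ a b, D a b → ¬ D b a) ∧
      ∀ L c, IsCyc (myc (SimpleGraph.cycleGraph (2 * k + 1)) r) L c → Odd L →
        (∀ L' c', IsCyc (myc (SimpleGraph.cycleGraph (2 * k + 1)) r) L' c' → Odd L' → L ≤ L') →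
        Set.Subsingleton {i : ZMod L | ¬ ((D (c i) (c (i - 1)) ∧ D (c i) (c (i + 1))) ∨
          (D (c (i - 1)) (c i) ∧ D (c (i + 1)) (c i)))} := by
  obtain ⟨D, h1, h2, h3⟩ := abstract (myc (SimpleGraph.cycleGraph (2 * k + 1)) r) (2 * min r k)
    (fun j a => cl (min r k) j (pos r k a).1 (pos r k a).2) (by
      have key : ∀ a b, ((∃ u v i j, a = some (u, i) ∧ b = some (v, j) ∧
          (SimpleGraph.cycleGraph (2 * k + 1)).Adj u v ∧
          ((i.val = 0 ∧ j.val = 0) ∨ i.val + 1 = j.val)) ∨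
          (∃ u i, a = some (u, i) ∧ b = none ∧ i.val + 1 = r)) → ∀ j j', j ≤ 2 * min r k →
          j' ≤ 2 * min r k → cl (min r k) j (pos r k a).1 (pos r k a).2 =
            cl (min r k) j (pos r k b).1 (pos r k b).2 →
          cl (min r k) j' (pos r k a).1 (pos r k a).2 =
            cl (min r k) j' (pos r k b).1 (pos r k b).2 → j = j' := by
        intro a b hab j j' hj hj' e1 e2
        by_cases hle : (pos r k a).2 ≤ (pos r k b).2
        · refine cl_key _ _ _ _ _ _ _ ?_ ?_ ?_ hj hj' ?_ e1 e2 <;>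
          rcases hab with ⟨u, v, i, i', rfl, rfl, h, h'⟩ | ⟨u, i, rfl, rfl, h'⟩ <;>
          (try rw [cyc_adj hk] at h) <;> have := u.2 <;> have := i.2 <;>
          (try have := v.2) <;> (try have := i'.2) <;>
          simp only [pos] at hle ⊢ <;> split_ifs at hle ⊢ <;> omega
        · refine cl_key _ _ _ _ _ _ _ ?_ ?_ ?_ hj hj' ?_ e1.symm e2.symm <;>
          rcases hab with ⟨u, v, i, i', rfl, rfl, h, h'⟩ | ⟨u, i, rfl, rfl, h'⟩ <;>
          (try rw [cyc_adj hk] at h) <;> have := u.2 <;> have := i.2 <;>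
          (try have := v.2) <;> (try have := i'.2) <;>
          simp only [pos] at hle ⊢ <;> split_ifs at hle ⊢ <;> omega
      rintro a b ⟨-, h | h⟩ j j' hj hj' e1 e2
      · exact key a b h j j' hj hj' e1 e2
      · exact key b a h j j' hj hj' e1.symm e2.symm)
  refine ⟨D, h1, h2, fun L c hc hodd hmin => h3 L c hc hodd ?_⟩
  have hsucc : ∀ n, 1 ≤ n → ∀ i : ZMod (2 * n + 1),
      ((i + 1).val = i.val + 1 ∨ ((i + 1).val = 0 ∧ i.val = 2 * n)) ∧ i.val ≤ 2 * n ∧
        (i + 1).val ≤ 2 * n := by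
    intro n hn i
    have : Fact (1 < 2 * n + 1) := ⟨by omega⟩
    have h1 := ZMod.val_lt i
    have h2 := ZMod.val_lt (i + 1)
    refine ⟨?_, by omega, by omega⟩
    rw [ZMod.val_add, ZMod.val_one]
    by_cases e : i.val = 2 * n
    · right; rw [e]; simp
    · left; exact Nat.mod_eq_of_lt (by omega)
  by_cases hrk : k ≤ r
  · rw [min_eq_right hrk]
    refine hmin (2 * k + 1) (fun t => some (⟨t.val, ZMod.val_lt t⟩, ⟨0, hr⟩))
      ⟨by omega, fun t t' h => ?_, fun t => ?_⟩ ⟨k, rfl⟩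
    · apply ZMod.val_injective
      simpa using h
    · have := hsucc k hk t
      refine ⟨?_, Or.inl (Or.inl ⟨_, _, _, _, rfl, rfl, ?_, Or.inl ⟨rfl, rfl⟩⟩)⟩
      · simp; omega
      · rw [cyc_adj hk]; simp only; omega
  · rw [min_eq_left (by omega)]
    refine hmin (2 * r + 1) (fun t => if t.val = 0 then none else
      some (⟨t.val, by have := ZMod.val_lt t; omega⟩,
        ⟨(r - max t.val 1) + (t.val - (r + 1)), by have := ZMod.val_lt t; omega⟩))
      ⟨by omega, fun t t' h => ?_, fun t => ?_⟩ ⟨r, rfl⟩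
    · apply ZMod.val_injective
      simp only at h
      split_ifs at h with a b
      · omega
      · simpa using congrArg (fun x => x.1.val) (Option.some.inj h)
    · have := hsucc r hr t
      simp only
      split_ifs with a b b
      · omega
      · exact ⟨by simp, Or.inr (Or.inr ⟨_, _, rfl, rfl, by simp only; omega⟩)⟩
      · exact ⟨by simp, Or.inl (Or.inr ⟨_, _, rfl, rfl, by simp only; omega⟩)⟩
      · refine ⟨by simp; omega, ?_⟩
        by_cases e : t.val < r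
        · refine Or.inr (Or.inl ⟨_, _, _, _, rfl, rfl, ?_, by simp only; omega⟩)
          rw [cyc_adj hk]; simp only; omega
        · refine Or.inl (Or.inl ⟨_, _, _, _, rfl, rfl, ?_, by simp only; omega⟩)
          rw [cyc_adj hk]; simp only; omega

end Pool.Agent.Results.MP_118fda_co.Alt
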